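import Pool.Agent.U69.CI.Final
import Pool.Agent.U69.CI.Collapse

/-!
# The variants of `cofin` for Borel σ-ideals: forcing the three strict inequalities

`cofinStar`, `cofinMinus`, `cofin`, `cofinPlus` are the four invariants of the problem, see
`Pool.Agent.U69.CI.Defs`. `MartinAxiomCard κ` is Martin's axiom for at most `κ` dense sets, and
`DomOm1` says that the dominating number of `ω₁` is at most `ℵ₂`. The forcing language is explained
in `Pool.Agent.Helper669.Forcing` and `Pool.Agent.W684.FM.Defs`; the sentences `MartinHolds P Om2`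
and `DomOm1Holds P` of the forcing language are the literal translations of `MartinFor Om2` and
`DomOm1`.
-/

set_option autoImplicit false

namespace Pool.Agent.Results.MP_66ab92_lc.CofinMartin

open Cardinal Pool.Agent.W684.FM Pool.Agent.Helper669.Forcing Pool.Agent.U69.CI

/-- (1) Martin's axiom for `ℵ₂` dense sets together with `𝔡(ω₁) ≤ ℵ₂` implies that there are proper
Borel σ-ideals on the Cantor space, containing all singletons, with
(a) `cofin* = ω₁` and `cofin⁻ = cofin = cofin⁺ = ω₂`;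
(b) `cofin* = cofin⁻ = ω₁` and `cofin = cofin⁺ = ω₂`;
(c) `cofin* = cofin⁻ = cofin = ω₁` and `cofin⁺ = ω₂`.
(2) Some forcing notion preserves `ω₁` and `ω₂` and forces `𝔡(ω₁) ≤ ℵ₂`.
(3) If `𝔡(ω₁) ≤ ℵ₂`, then some forcing notion preserves all cardinals and forces both hypotheses of
(1). So the hypotheses of (1) hold after two successive forcing extensions of an arbitrary ground
model (one of them suffices over a model of `2^{ℵ₁} = ℵ₂`). -/
theorem result :
    (MartinAxiomCard (ℵ_ 2) → DomOm1 →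
      (∃ I : Set (Set (ℕ → Bool)), IsBorelSigmaIdeal I ∧ (∀ x, {x} ∈ I) ∧ Set.univ ∉ I ∧
        cofinStar I = om1 ∧ cofinMinus I = om2 ∧ cofin I = om2 ∧ cofinPlus I = om2) ∧
      (∃ I : Set (Set (ℕ → Bool)), IsBorelSigmaIdeal I ∧ (∀ x, {x} ∈ I) ∧ Set.univ ∉ I ∧
        cofinStar I = om1 ∧ cofinMinus I = om1 ∧ cofin I = om2 ∧ cofinPlus I = om2) ∧
      (∃ I : Set (Set (ℕ → Bool)), IsBorelSigmaIdeal I ∧ (∀ x, {x} ∈ I) ∧ Set.univ ∉ I ∧
        cofinStar I = om1 ∧ cofinMinus I = om1 ∧ cofin I = om1 ∧ cofinPlus I = om2)) ∧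
    (∃ (P : Type) (_ : Preorder P), Nonempty P ∧ ∀ p : P,
      p ∈ OmegaOnePreserved P ∧ p ∈ OmegaTwoPreserved P ∧ p ∈ DomOm1Holds P) ∧
    (DomOm1 → ∃ (P : Type) (_ : Preorder P), Nonempty P ∧ ∀ p : P,
      p ∈ CardinalsPreserved.{0, 0} P ∧ p ∈ OmegaOnePreserved P ∧ p ∈ MartinHolds P Om2 ∧
        p ∈ DomOm1Holds P) ∧
    ((2 : Cardinal.{0}) ^ (ℵ₁ : Cardinal.{0}) = ℵ_ 2 → DomOm1) ∧
    (MartinFor Om2 ↔ MartinAxiomCard (ℵ_ 2)) := by
  refine ⟨fun hMA hd => ⟨main_a hMA hd, main_b hMA hd, main_c hMA hd⟩,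
    exists_forcing_dom, Pool.Agent.U69.CI.exists_forcing, domOm1_of_power, ?_⟩
  have : Infinite Om2 := by
    rw [Cardinal.infinite_iff, Cardinal.mk_ord_toType]
    exact Cardinal.aleph0_le_aleph _
  rw [martinFor_iff, Cardinal.mk_ord_toType]

end Pool.Agent.Results.MP_66ab92_lc.CofinMartin
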